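import Pool.Agent.Y34.EL.Stm
import Pool.Agent.Y901.HB.Inv

/-!
# Parallel lines at arbitrarily large distances give a flat half-plane (helper954)
-/

set_option autoImplicit false

universe u

open Metric Set Filter Topology
open Pool.Agent.TH60.FP Pool.Agent.Y34.HB Pool.Agent.Y155.HB Pool.Agent.Y34.EL

namespace Pool.Agent.Y954.EL

/-- two parallel lines bound a flat strip -/
theorem strip_of_par {X : Type u} [MetricSpace X] [ProperSpace X] (hX : CN X) {c c' : ℝ → X}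
    (hc : Isometry c) (hc' : Isometry c') (hp : Par c c') (hd : 0 < DD c c') :
    ∃ P : ℝ → ℝ → X, Strip P (DD c c') ∧ ∀ t, P t 0 = c t := by
  have hdd := t_dd t_strip.{u} (t_trans t_strip) (t_mid t_strip)
  obtain ⟨-, o, ho⟩ := (hdd X hX).1 c c' hc hc' hp
  obtain ⟨d, hdef⟩ : ∃ d, d = DD c c' := ⟨_, rfl⟩
  rw [← hdef] at hd ho ⊢
  have ho2 : ∀ s t : ℝ, dist (c s) (c' (t + o)) ^ 2 = d ^ 2 + (t - s) ^ 2 := by
    intro s t
    rw [ho s (t + o)]
    ring
  have hcl : ∀ s : ℝ, 0 ≤ max 0 (min 1 (s / d)) ∧ max 0 (min 1 (s / d)) ≤ 1 := fun s =>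
    ⟨le_max_left _ _, max_le zero_le_one (min_le_left _ _)⟩
  choose P hP using fun (z : ℝ) (s : ℝ) =>
    dv_exists hX (c z) (c' (z + o)) (max 0 (min 1 (s / d))) (hcl s).1 (hcl s).2
  have hh : Isometry (fun t => c' (t + o)) := by
    refine Isometry.of_dist_eq fun s t => ?_
    rw [hc'.dist_eq, Real.dist_eq, Real.dist_eq]
    congr 1
    ring
  have hS := Pool.Agent.Y901.HB.slab hc hh hd (fun z w => by
    rw [ho2 z w, Real.dist_eq, sq_abs]
    ring) hP
  refine ⟨P, ?_, ?_⟩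
  · intro t s t' s' h1 h2 h3 h4
    rw [hS t t' s s' h1 h2 h3 h4, Real.dist_eq, sq_abs]
  · intro t
    have h1 := (hP t 0).left (hcl 0).1
    have h2 : max 0 (min 1 ((0 : ℝ) / d)) = 0 := by
      rw [zero_div, min_eq_right zero_le_one, max_self]
    rw [h2, zero_mul] at h1
    exact (dist_eq_zero.1 (le_antisymm h1 dist_nonneg)).symm

theorem hlim : S_HLIM.{u} := by
  intro X _ _ hX σ hσ hall
  choose τ hτ1 hτ2 hτ3 using hall
  have hw : ∀ n : ℕ, (n : ℝ) + 1 ≤ DD σ (τ (n + 1)) := fun n => by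
    have := hτ3 (n + 1)
    push_cast at this
    exact this
  have hpos : ∀ n : ℕ, 0 < DD σ (τ (n + 1)) := fun n => by
    have := hw n
    have h0 : (0 : ℝ) ≤ n := Nat.cast_nonneg n
    linarith
  choose P hP1 hP2 using fun n : ℕ => strip_of_par hX hσ (hτ1 (n + 1)) (hτ2 (n + 1)) (hpos n)
  let w : ℕ → ℝ := fun n => DD σ (τ (n + 1))
  let F : ℕ → ℝ × NNReal → X := fun n p => P n p.1 (min (p.2 : ℝ) (w n))
  have hF : ∀ (n : ℕ) (p q : ℝ × NNReal), (p.2 : ℝ) ≤ n → (q.2 : ℝ) ≤ n →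
      dist (F n p) (F n q) ^ 2 = (p.1 - q.1) ^ 2 + ((p.2 : ℝ) - q.2) ^ 2 := by
    intro n p q hp hq
    have h1 : (p.2 : ℝ) ≤ w n := by have := hw n; simp only [w]; linarith
    have h2 : (q.2 : ℝ) ≤ w n := by have := hw n; simp only [w]; linarith
    simp only [F]
    rw [min_eq_left h1, min_eq_left h2]
    exact hP1 n _ _ _ _ p.2.2 h1 q.2.2 h2
  have hF0 : ∀ n (t : ℝ), F n (t, 0) = σ t := by
    intro n t
    simp only [F, NNReal.coe_zero]
    rw [min_eq_left (hpos n).le]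
    exact hP2 n t
  have hbd : ∀ n (p : ℝ × NNReal), dist (F n p) (σ 0) ≤ |p.1| + p.2 := by
    intro n p
    have h0 : 0 ≤ (p.2 : ℝ) := p.2.2
    have h1 : dist (F n p) (σ 0) ^ 2 = (p.1 - 0) ^ 2 + (min (p.2 : ℝ) (w n) - 0) ^ 2 := by
      rw [← hP2 n 0]
      exact hP1 n _ _ _ _ (le_min h0 (hpos n).le) (min_le_right _ _) le_rfl (hpos n).le
    have h2 : (min (p.2 : ℝ) (w n) - 0) ^ 2 ≤ (p.2 : ℝ) ^ 2 := by
      rw [sub_zero]
      exact pow_le_pow_left₀ (le_min h0 (hpos n).le) (min_le_left _ _) 2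
    refine (pow_le_pow_iff_left₀ dist_nonneg (by positivity) two_ne_zero).1 ?_
    rw [h1, add_sq, sq_abs]
    have h3 : 0 ≤ |p.1| * (p.2 : ℝ) := by positivity
    nlinarith
  have hlim : ∀ p : ℝ × NNReal, ∃ x : X,
      Tendsto (fun n => F n p) (hyperfilter ℕ : Filter ℕ) (𝓝 x) := by
    intro p
    have hc : IsCompact (closedBall (σ 0) (|p.1| + p.2)) := isCompact_closedBall _ _
    obtain ⟨x, -, hx⟩ := hc.ultrafilter_le_nhds ((hyperfilter ℕ).map (fun n => F n p)) (by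
      rw [le_principal_iff]
      show (fun n => F n p) ⁻¹' (closedBall (σ 0) (|p.1| + p.2)) ∈ hyperfilter ℕ
      exact mem_of_superset univ_mem fun n _ => mem_closedBall.2 (hbd n p))
    exact ⟨x, hx⟩
  choose H hH using hlim
  refine ⟨H, ?_, ?_⟩
  · intro p q
    have h1 : Tendsto (fun n => dist (F n p) (F n q) ^ 2) (hyperfilter ℕ : Filter ℕ)
        (𝓝 (dist (H p) (H q) ^ 2)) := ((hH p).dist (hH q)).pow 2
    have h2 : ∀ᶠ n in (hyperfilter ℕ : Filter ℕ), dist (F n p) (F n q) ^ 2 =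
        (p.1 - q.1) ^ 2 + ((p.2 : ℝ) - q.2) ^ 2 := by
      have h3 : ∀ᶠ n : ℕ in atTop, max (p.2 : ℝ) q.2 ≤ n :=
        tendsto_natCast_atTop_atTop.eventually (eventually_ge_atTop _)
      have h4 := Nat.hyperfilter_le_atTop h3
      filter_upwards [h4] with n hn
      exact hF n p q ((le_max_left _ _).trans hn) ((le_max_right _ _).trans hn)
    have h5 : Tendsto (fun n => dist (F n p) (F n q) ^ 2) (hyperfilter ℕ : Filter ℕ)
        (𝓝 ((p.1 - q.1) ^ 2 + ((p.2 : ℝ) - q.2) ^ 2)) :=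
      tendsto_const_nhds.congr' (h2.mono fun n hn => hn.symm)
    exact tendsto_nhds_unique h1 h5
  · intro t
    have h1 := hH (t, 0)
    simp only [hF0] at h1
    exact tendsto_nhds_unique h1 tendsto_const_nhds

end Pool.Agent.Y954.EL
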